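import Pool.Agent.NNr.R13_1_3_4.D0
import Pool.Agent.NNr.R13_1_3_4.D1
import Pool.Agent.NNe.Slots

set_option linter.all false
set_option maxRecDepth 1000000
namespace Pool.Agent.NNr.R13_1_3_4

open Pool.Agent.NNe

def st1_5_0 : starCk (nat_lit 61) (nat_lit 3) (nat_lit 1) (nat_lit 1) (nat_lit 24) (nat_lit 348) (nat_lit 256) C1_5 = true := by decide +kernel
def sc1_5 : stCov (nat_lit 2) (nat_lit 348) (Rl.cons (nat_lit 348) (nat_lit 24) Rl.nil) C1_5 = true := by decide +kernel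
def wf1_6 : wfC (nat_lit 61) (nat_lit 3) C1_6 = true := by decide +kernel
def rf1_6 : rfCk (nat_lit 60) (nat_lit 5) (nat_lit 61) (nat_lit 3) (nat_lit 1) (nat_lit 262144) (nat_lit 6) TL1 CL0 CL1 = true := by decide +kernel
def st1_6_0 : starCk (nat_lit 61) (nat_lit 3) (nat_lit 1) (nat_lit 1) (nat_lit 20) (nat_lit 106) (nat_lit 256) C1_6 = true := by decide +kernel
def sc1_6 : stCov (nat_lit 2) (nat_lit 106) (Rl.cons (nat_lit 106) (nat_lit 20) Rl.nil) C1_6 = true := by decide +kernel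
def wf1_7 : wfC (nat_lit 61) (nat_lit 3) C1_7 = true := by decide +kernel
def rf1_7 : rfCk (nat_lit 60) (nat_lit 5) (nat_lit 61) (nat_lit 3) (nat_lit 1) (nat_lit 262144) (nat_lit 7) TL1 CL0 CL1 = true := by decide +kernel
def st1_7_0 : starCk (nat_lit 61) (nat_lit 3) (nat_lit 1) (nat_lit 1) (nat_lit 50) (nat_lit 74) (nat_lit 1) C1_7 = true := by decide +kernel
def sc1_7 : stCov (nat_lit 0) (nat_lit 74) (Rl.cons (nat_lit 74) (nat_lit 50) Rl.nil) C1_7 = true := by decide +kernel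
def wf1_8 : wfC (nat_lit 61) (nat_lit 3) C1_8 = true := by decide +kernel
def rf1_8 : rfCk (nat_lit 60) (nat_lit 5) (nat_lit 61) (nat_lit 3) (nat_lit 1) (nat_lit 262144) (nat_lit 8) TL1 CL0 CL1 = true := by decide +kernel
def st1_8_0 : starCk (nat_lit 61) (nat_lit 3) (nat_lit 1) (nat_lit 1) (nat_lit 26) (nat_lit 233) (nat_lit 256) C1_8 = true := by decide +kernel
def sc1_8 : stCov (nat_lit 2) (nat_lit 233) (Rl.cons (nat_lit 233) (nat_lit 26) Rl.nil) C1_8 = true := by decide +kernel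
def wf1_9 : wfC (nat_lit 61) (nat_lit 3) C1_9 = true := by decide +kernel
def rf1_9 : rfCk (nat_lit 60) (nat_lit 5) (nat_lit 61) (nat_lit 3) (nat_lit 1) (nat_lit 262144) (nat_lit 9) TL1 CL0 CL1 = true := by decide +kernel
def st1_9_0 : starCk (nat_lit 61) (nat_lit 3) (nat_lit 1) (nat_lit 1) (nat_lit 16) (nat_lit 220) (nat_lit 256) C1_9 = true := by decide +kernel
def sc1_9 : stCov (nat_lit 2) (nat_lit 220) (Rl.cons (nat_lit 220) (nat_lit 16) Rl.nil) C1_9 = true := by decide +kernel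
def wf1_10 : wfC (nat_lit 61) (nat_lit 3) C1_10 = true := by decide +kernel
def rf1_10 : rfCk (nat_lit 60) (nat_lit 5) (nat_lit 61) (nat_lit 3) (nat_lit 1) (nat_lit 262144) (nat_lit 10) TL1 CL0 CL1 = true := by decide +kernel
def st1_10_0 : starCk (nat_lit 61) (nat_lit 3) (nat_lit 1) (nat_lit 1) (nat_lit 40) (nat_lit 76) (nat_lit 16) C1_10 = true := by decide +kernel
def sc1_10 : stCov (nat_lit 1) (nat_lit 76) (Rl.cons (nat_lit 76) (nat_lit 40) Rl.nil) C1_10 = true := by decide +kernel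
def wf1_11 : wfC (nat_lit 61) (nat_lit 3) C1_11 = true := by decide +kernel
def rf1_11 : rfCk (nat_lit 60) (nat_lit 5) (nat_lit 61) (nat_lit 3) (nat_lit 1) (nat_lit 262144) (nat_lit 11) TL1 CL0 CL1 = true := by decide +kernel
def st1_11_0 : starCk (nat_lit 61) (nat_lit 3) (nat_lit 1) (nat_lit 1) (nat_lit 3) (nat_lit 50) (nat_lit 256) C1_11 = true := by decide +kernel
def sc1_11 : stCov (nat_lit 2) (nat_lit 50) (Rl.cons (nat_lit 50) (nat_lit 3) Rl.nil) C1_11 = true := by decide +kernel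
def wf1_15 : wfC (nat_lit 61) (nat_lit 3) C1_15 = true := by decide +kernel
def rf1_15 : rfCk (nat_lit 60) (nat_lit 5) (nat_lit 61) (nat_lit 3) (nat_lit 1) (nat_lit 262144) (nat_lit 15) TL1 CL0 CL1 = true := by decide +kernel
def st1_15_0 : starCk (nat_lit 61) (nat_lit 3) (nat_lit 1) (nat_lit 1) (nat_lit 354) (nat_lit 422) (nat_lit 4096) C1_15 = true := by decide +kernel
def sc1_15 : stCov (nat_lit 3) (nat_lit 422) (Rl.cons (nat_lit 422) (nat_lit 354) Rl.nil) C1_15 = true := by decide +kernel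
def wf1_16 : wfC (nat_lit 61) (nat_lit 3) C1_16 = true := by decide +kernel
def rf1_16 : rfCk (nat_lit 60) (nat_lit 5) (nat_lit 61) (nat_lit 3) (nat_lit 1) (nat_lit 262144) (nat_lit 16) TL1 CL0 CL1 = true := by decide +kernel
def st1_16_0 : starCk (nat_lit 61) (nat_lit 3) (nat_lit 1) (nat_lit 1) (nat_lit 164) (nat_lit 376) (nat_lit 16) C1_16 = true := by decide +kernel
def sc1_16 : stCov (nat_lit 1) (nat_lit 376) (Rl.cons (nat_lit 376) (nat_lit 164) Rl.nil) C1_16 = true := by decide +kernel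
def wf1_17 : wfC (nat_lit 61) (nat_lit 3) C1_17 = true := by decide +kernel
def rf1_17 : rfCk (nat_lit 60) (nat_lit 5) (nat_lit 61) (nat_lit 3) (nat_lit 1) (nat_lit 262144) (nat_lit 17) TL1 CL0 CL1 = true := by decide +kernel
def st1_17_0 : starCk (nat_lit 61) (nat_lit 3) (nat_lit 1) (nat_lit 1) (nat_lit 176) (nat_lit 380) (nat_lit 16) C1_17 = true := by decide +kernel
def sc1_17 : stCov (nat_lit 1) (nat_lit 380) (Rl.cons (nat_lit 380) (nat_lit 176) Rl.nil) C1_17 = true := by decide +kernel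
def wf1_18 : wfC (nat_lit 61) (nat_lit 3) C1_18 = true := by decide +kernel
def rf1_18 : rfCk (nat_lit 60) (nat_lit 5) (nat_lit 61) (nat_lit 3) (nat_lit 1) (nat_lit 262144) (nat_lit 18) TL1 CL0 CL1 = true := by decide +kernel
def st1_18_0 : starCk (nat_lit 61) (nat_lit 3) (nat_lit 1) (nat_lit 1) (nat_lit 150) (nat_lit 340) (nat_lit 256) C1_18 = true := by decide +kernel
def sc1_18 : stCov (nat_lit 2) (nat_lit 340) (Rl.cons (nat_lit 340) (nat_lit 150) Rl.nil) C1_18 = true := by decide +kernel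
def wf1_19 : wfC (nat_lit 61) (nat_lit 3) C1_19 = true := by decide +kernel
def rf1_19 : rfCk (nat_lit 60) (nat_lit 5) (nat_lit 61) (nat_lit 3) (nat_lit 1) (nat_lit 262144) (nat_lit 19) TL1 CL0 CL1 = true := by decide +kernel

end Pool.Agent.NNr.R13_1_3_4
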