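import Pool.Agent.NNr.R13_1_3_4.D0
import Pool.Agent.NNr.R13_1_3_4.D1
import Pool.Agent.NNr.R13_1_3_4.D2
import Pool.Agent.NNe.Slots

set_option linter.all false
set_option maxRecDepth 1000000
namespace Pool.Agent.NNr.R13_1_3_4

open Pool.Agent.NNe

def st1_19_0 : starCk (nat_lit 61) (nat_lit 3) (nat_lit 1) (nat_lit 1) (nat_lit 104) (nat_lit 316) (nat_lit 16) C1_19 = true := by decide +kernel
def sc1_19 : stCov (nat_lit 1) (nat_lit 316) (Rl.cons (nat_lit 316) (nat_lit 104) Rl.nil) C1_19 = true := by decide +kernel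
def wf1_20 : wfC (nat_lit 61) (nat_lit 3) C1_20 = true := by decide +kernel
def rf1_20 : rfCk (nat_lit 60) (nat_lit 5) (nat_lit 61) (nat_lit 3) (nat_lit 1) (nat_lit 262144) (nat_lit 20) TL1 CL0 CL1 = true := by decide +kernel
def st1_20_0 : starCk (nat_lit 61) (nat_lit 3) (nat_lit 1) (nat_lit 1) (nat_lit 80) (nat_lit 128) (nat_lit 4096) C1_20 = true := by decide +kernel
def sc1_20 : stCov (nat_lit 3) (nat_lit 128) (Rl.cons (nat_lit 128) (nat_lit 80) Rl.nil) C1_20 = true := by decide +kernel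
def ti1_0 : tileCk (nat_lit 61) (nat_lit 3) (nat_lit 2) (nat_lit 1) (nat_lit 601) (nat_lit 13) (nat_lit 21) ZL1_0 CL1 = true := by decide +kernel
def zl1_0 : zlOK (nat_lit 601) ZL1_0 = true := by decide +kernel
def ti1_1 : tileCk (nat_lit 61) (nat_lit 3) (nat_lit 2) (nat_lit 1) (nat_lit 601) (nat_lit 13) (nat_lit 21) ZL1_1 CL1 = true := by decide +kernel
def zl1_1 : zlOK (nat_lit 601) ZL1_1 = true := by decide +kernel
def tc1_0 : tiCov (nat_lit 1) (nat_lit 0) ZZ1 C1_0 = true := by decide +kernel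
def tc1_1 : tiCov (nat_lit 1) (nat_lit 1) ZZ1 C1_1 = true := by decide +kernel
def tc1_2 : tiCov (nat_lit 1) (nat_lit 2) ZZ1 C1_2 = true := by decide +kernel
def tc1_3 : tiCov (nat_lit 1) (nat_lit 3) ZZ1 C1_3 = true := by decide +kernel
def tc1_4 : tiCov (nat_lit 1) (nat_lit 4) ZZ1 C1_4 = true := by decide +kernel
def tc1_5 : tiCov (nat_lit 1) (nat_lit 5) ZZ1 C1_5 = true := by decide +kernel
def tc1_6 : tiCov (nat_lit 1) (nat_lit 6) ZZ1 C1_6 = true := by decide +kernel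
def tc1_7 : tiCov (nat_lit 1) (nat_lit 7) ZZ1 C1_7 = true := by decide +kernel
def tc1_8 : tiCov (nat_lit 1) (nat_lit 8) ZZ1 C1_8 = true := by decide +kernel
def tc1_9 : tiCov (nat_lit 1) (nat_lit 9) ZZ1 C1_9 = true := by decide +kernel
def tc1_10 : tiCov (nat_lit 1) (nat_lit 10) ZZ1 C1_10 = true := by decide +kernel
def tc1_11 : tiCov (nat_lit 1) (nat_lit 11) ZZ1 C1_11 = true := by decide +kernel
def tc1_15 : tiCov (nat_lit 1) (nat_lit 15) ZZ1 C1_15 = true := by decide +kernel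
def tc1_16 : tiCov (nat_lit 1) (nat_lit 16) ZZ1 C1_16 = true := by decide +kernel
def tc1_17 : tiCov (nat_lit 1) (nat_lit 17) ZZ1 C1_17 = true := by decide +kernel
def tc1_18 : tiCov (nat_lit 1) (nat_lit 18) ZZ1 C1_18 = true := by decide +kernel
def tc1_19 : tiCov (nat_lit 1) (nat_lit 19) ZZ1 C1_19 = true := by decide +kernel
def tc1_20 : tiCov (nat_lit 1) (nat_lit 20) ZZ1 C1_20 = true := by decide +kernel
def wf2_0 : wfC (nat_lit 60) (nat_lit 21) C2_0 = true := by decide +kernel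
def rf2_0 : rfCk (nat_lit 61) (nat_lit 3) (nat_lit 60) (nat_lit 21) (nat_lit 9) (nat_lit 0) (nat_lit 0) TL2 CL1 CL2 = true := by decide +kernel
def st2_0_0 : starCk (nat_lit 60) (nat_lit 21) (nat_lit 1) (nat_lit 10) (nat_lit 14) (nat_lit 0) (nat_lit 256) C2_0 = true := by decide +kernel
def sc2_0 : stCov (nat_lit 2) (nat_lit 0) (Rl.cons (nat_lit 0) (nat_lit 14) Rl.nil) C2_0 = true := by decide +kernel
def wf2_1 : wfC (nat_lit 60) (nat_lit 21) C2_1 = true := by decide +kernel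
def rf2_1 : rfCk (nat_lit 61) (nat_lit 3) (nat_lit 60) (nat_lit 21) (nat_lit 9) (nat_lit 0) (nat_lit 1) TL2 CL1 CL2 = true := by decide +kernel
def st2_1_0 : starCk (nat_lit 60) (nat_lit 21) (nat_lit 1) (nat_lit 10) (nat_lit 10) (nat_lit 48) (nat_lit 256) C2_1 = true := by decide +kernel
def sc2_1 : stCov (nat_lit 2) (nat_lit 48) (Rl.cons (nat_lit 48) (nat_lit 10) Rl.nil) C2_1 = true := by decide +kernel
def wf2_2 : wfC (nat_lit 60) (nat_lit 21) C2_2 = true := by decide +kernel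
def rf2_2 : rfCk (nat_lit 61) (nat_lit 3) (nat_lit 60) (nat_lit 21) (nat_lit 9) (nat_lit 0) (nat_lit 2) TL2 CL1 CL2 = true := by decide +kernel
def st2_2_0 : starCk (nat_lit 60) (nat_lit 21) (nat_lit 1) (nat_lit 10) (nat_lit 24) (nat_lit 74) (nat_lit 16) C2_2 = true := by decide +kernel
def sc2_2 : stCov (nat_lit 1) (nat_lit 74) (Rl.cons (nat_lit 74) (nat_lit 24) Rl.nil) C2_2 = true := by decide +kernel
def wf2_3 : wfC (nat_lit 60) (nat_lit 21) C2_3 = true := by decide +kernel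
def rf2_3 : rfCk (nat_lit 61) (nat_lit 3) (nat_lit 60) (nat_lit 21) (nat_lit 9) (nat_lit 0) (nat_lit 3) TL2 CL1 CL2 = true := by decide +kernel
def st2_3_0 : starCk (nat_lit 60) (nat_lit 21) (nat_lit 1) (nat_lit 10) (nat_lit 9) (nat_lit 17) (nat_lit 1) C2_3 = true := by decide +kernel
def sc2_3 : stCov (nat_lit 0) (nat_lit 17) (Rl.cons (nat_lit 17) (nat_lit 9) Rl.nil) C2_3 = true := by decide +kernel
def wf2_4 : wfC (nat_lit 60) (nat_lit 21) C2_4 = true := by decide +kernel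
def rf2_4 : rfCk (nat_lit 61) (nat_lit 3) (nat_lit 60) (nat_lit 21) (nat_lit 9) (nat_lit 0) (nat_lit 4) TL2 CL1 CL2 = true := by decide +kernel

end Pool.Agent.NNr.R13_1_3_4
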