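import Pool.Agent.NNr.R13_1_3_4.D1
import Pool.Agent.NNr.R13_1_3_4.D2

set_option linter.all false
set_option maxRecDepth 1000000
namespace Pool.Agent.NNr.R13_1_3_4

open Pool.Agent.NNe

def st2_4_0 : starCk (nat_lit 60) (nat_lit 21) (nat_lit 1) (nat_lit 10) (nat_lit 34) (nat_lit 197) (nat_lit 256) C2_4 = true := by decide +kernel
def sc2_4 : stCov (nat_lit 2) (nat_lit 197) (Rl.cons (nat_lit 197) (nat_lit 34) Rl.nil) C2_4 = true := by decide +kernel
def wf2_5 : wfC (nat_lit 60) (nat_lit 21) C2_5 = true := by decide +kernel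
def rf2_5 : rfCk (nat_lit 61) (nat_lit 3) (nat_lit 60) (nat_lit 21) (nat_lit 9) (nat_lit 0) (nat_lit 5) TL2 CL1 CL2 = true := by decide +kernel
def st2_5_0 : starCk (nat_lit 60) (nat_lit 21) (nat_lit 1) (nat_lit 10) (nat_lit 19) (nat_lit 182) (nat_lit 256) C2_5 = true := by decide +kernel
def sc2_5 : stCov (nat_lit 2) (nat_lit 182) (Rl.cons (nat_lit 182) (nat_lit 19) Rl.nil) C2_5 = true := by decide +kernel
def wf2_6 : wfC (nat_lit 60) (nat_lit 21) C2_6 = true := by decide +kernel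
def rf2_6 : rfCk (nat_lit 61) (nat_lit 3) (nat_lit 60) (nat_lit 21) (nat_lit 9) (nat_lit 0) (nat_lit 6) TL2 CL1 CL2 = true := by decide +kernel
def st2_6_0 : starCk (nat_lit 60) (nat_lit 21) (nat_lit 1) (nat_lit 10) (nat_lit 18) (nat_lit 51) (nat_lit 256) C2_6 = true := by decide +kernel
def sc2_6 : stCov (nat_lit 2) (nat_lit 51) (Rl.cons (nat_lit 51) (nat_lit 18) Rl.nil) C2_6 = true := by decide +kernel
def wf2_7 : wfC (nat_lit 60) (nat_lit 21) C2_7 = true := by decide +kernel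
def rf2_7 : rfCk (nat_lit 61) (nat_lit 3) (nat_lit 60) (nat_lit 21) (nat_lit 9) (nat_lit 0) (nat_lit 7) TL2 CL1 CL2 = true := by decide +kernel
def st2_7_0 : starCk (nat_lit 60) (nat_lit 21) (nat_lit 1) (nat_lit 10) (nat_lit 27) (nat_lit 55) (nat_lit 16) C2_7 = true := by decide +kernel
def sc2_7 : stCov (nat_lit 1) (nat_lit 55) (Rl.cons (nat_lit 55) (nat_lit 27) Rl.nil) C2_7 = true := by decide +kernel
def wf2_8 : wfC (nat_lit 60) (nat_lit 21) C2_8 = true := by decide +kernel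
def rf2_8 : rfCk (nat_lit 61) (nat_lit 3) (nat_lit 60) (nat_lit 21) (nat_lit 9) (nat_lit 0) (nat_lit 8) TL2 CL1 CL2 = true := by decide +kernel
def st2_8_0 : starCk (nat_lit 60) (nat_lit 21) (nat_lit 1) (nat_lit 10) (nat_lit 21) (nat_lit 89) (nat_lit 16) C2_8 = true := by decide +kernel
def sc2_8 : stCov (nat_lit 1) (nat_lit 89) (Rl.cons (nat_lit 89) (nat_lit 21) Rl.nil) C2_8 = true := by decide +kernel
def wf2_9 : wfC (nat_lit 60) (nat_lit 21) C2_9 = true := by decide +kernel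
def rf2_9 : rfCk (nat_lit 61) (nat_lit 3) (nat_lit 60) (nat_lit 21) (nat_lit 9) (nat_lit 0) (nat_lit 9) TL2 CL1 CL2 = true := by decide +kernel
def st2_9_0 : starCk (nat_lit 60) (nat_lit 21) (nat_lit 1) (nat_lit 10) (nat_lit 14) (nat_lit 125) (nat_lit 256) C2_9 = true := by decide +kernel
def sc2_9 : stCov (nat_lit 2) (nat_lit 125) (Rl.cons (nat_lit 125) (nat_lit 14) Rl.nil) C2_9 = true := by decide +kernel
def wf2_10 : wfC (nat_lit 60) (nat_lit 21) C2_10 = true := by decide +kernel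
def rf2_10 : rfCk (nat_lit 61) (nat_lit 3) (nat_lit 60) (nat_lit 21) (nat_lit 9) (nat_lit 0) (nat_lit 10) TL2 CL1 CL2 = true := by decide +kernel
def st2_10_0 : starCk (nat_lit 60) (nat_lit 21) (nat_lit 1) (nat_lit 10) (nat_lit 15) (nat_lit 41) (nat_lit 16) C2_10 = true := by decide +kernel
def sc2_10 : stCov (nat_lit 1) (nat_lit 41) (Rl.cons (nat_lit 41) (nat_lit 15) Rl.nil) C2_10 = true := by decide +kernel
def wf2_11 : wfC (nat_lit 60) (nat_lit 21) C2_11 = true := by decide +kernel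
def rf2_11 : rfCk (nat_lit 61) (nat_lit 3) (nat_lit 60) (nat_lit 21) (nat_lit 9) (nat_lit 0) (nat_lit 11) TL2 CL1 CL2 = true := by decide +kernel
def st2_11_0 : starCk (nat_lit 60) (nat_lit 21) (nat_lit 1) (nat_lit 10) (nat_lit 2) (nat_lit 23) (nat_lit 256) C2_11 = true := by decide +kernel
def sc2_11 : stCov (nat_lit 2) (nat_lit 23) (Rl.cons (nat_lit 23) (nat_lit 2) Rl.nil) C2_11 = true := by decide +kernel
def wf2_15 : wfC (nat_lit 60) (nat_lit 21) C2_15 = true := by decide +kernel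
def rf2_15 : rfCk (nat_lit 61) (nat_lit 3) (nat_lit 60) (nat_lit 21) (nat_lit 9) (nat_lit 0) (nat_lit 15) TL2 CL1 CL2 = true := by decide +kernel
def st2_15_0 : starCk (nat_lit 60) (nat_lit 21) (nat_lit 1) (nat_lit 10) (nat_lit 114) (nat_lit 294) (nat_lit 4096) C2_15 = true := by decide +kernel
def st2_15_1 : starCk (nat_lit 60) (nat_lit 21) (nat_lit 1) (nat_lit 10) (nat_lit 115) (nat_lit 408) (nat_lit 4096) C2_15 = true := by decide +kernel
def sc2_15 : stCov (nat_lit 3) (nat_lit 294) (Rl.cons (nat_lit 294) (nat_lit 114) (Rl.cons (nat_lit 408) (nat_lit 115) Rl.nil)) C2_15 = true := by decide +kernel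
def wf2_16 : wfC (nat_lit 60) (nat_lit 21) C2_16 = true := by decide +kernel
def rf2_16 : rfCk (nat_lit 61) (nat_lit 3) (nat_lit 60) (nat_lit 21) (nat_lit 9) (nat_lit 0) (nat_lit 16) TL2 CL1 CL2 = true := by decide +kernel
def st2_16_0 : starCk (nat_lit 60) (nat_lit 21) (nat_lit 1) (nat_lit 10) (nat_lit 90) (nat_lit 272) (nat_lit 16) C2_16 = true := by decide +kernel
def sc2_16 : stCov (nat_lit 1) (nat_lit 272) (Rl.cons (nat_lit 272) (nat_lit 90) Rl.nil) C2_16 = true := by decide +kernel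
def wf2_17 : wfC (nat_lit 60) (nat_lit 21) C2_17 = true := by decide +kernel
def rf2_17 : rfCk (nat_lit 61) (nat_lit 3) (nat_lit 60) (nat_lit 21) (nat_lit 9) (nat_lit 0) (nat_lit 17) TL2 CL1 CL2 = true := by decide +kernel
def st2_17_0 : starCk (nat_lit 60) (nat_lit 21) (nat_lit 1) (nat_lit 10) (nat_lit 100) (nat_lit 245) (nat_lit 16) C2_17 = true := by decide +kernel
def sc2_17 : stCov (nat_lit 1) (nat_lit 245) (Rl.cons (nat_lit 245) (nat_lit 100) Rl.nil) C2_17 = true := by decide +kernel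
def wf2_18 : wfC (nat_lit 60) (nat_lit 21) C2_18 = true := by decide +kernel
def rf2_18 : rfCk (nat_lit 61) (nat_lit 3) (nat_lit 60) (nat_lit 21) (nat_lit 9) (nat_lit 0) (nat_lit 18) TL2 CL1 CL2 = true := by decide +kernel
def st2_18_0 : starCk (nat_lit 60) (nat_lit 21) (nat_lit 1) (nat_lit 10) (nat_lit 88) (nat_lit 222) (nat_lit 256) C2_18 = true := by decide +kernel
def sc2_18 : stCov (nat_lit 2) (nat_lit 222) (Rl.cons (nat_lit 222) (nat_lit 88) Rl.nil) C2_18 = true := by decide +kernel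
def wf2_19 : wfC (nat_lit 60) (nat_lit 21) C2_19 = true := by decide +kernel
def rf2_19 : rfCk (nat_lit 61) (nat_lit 3) (nat_lit 60) (nat_lit 21) (nat_lit 9) (nat_lit 0) (nat_lit 19) TL2 CL1 CL2 = true := by decide +kernel
def st2_19_0 : starCk (nat_lit 60) (nat_lit 21) (nat_lit 1) (nat_lit 10) (nat_lit 47) (nat_lit 203) (nat_lit 16) C2_19 = true := by decide +kernel
def sc2_19 : stCov (nat_lit 1) (nat_lit 203) (Rl.cons (nat_lit 203) (nat_lit 47) Rl.nil) C2_19 = true := by decide +kernel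
def wf2_20 : wfC (nat_lit 60) (nat_lit 21) C2_20 = true := by decide +kernel
def rf2_20 : rfCk (nat_lit 61) (nat_lit 3) (nat_lit 60) (nat_lit 21) (nat_lit 9) (nat_lit 0) (nat_lit 20) TL2 CL1 CL2 = true := by decide +kernel
def st2_20_0 : starCk (nat_lit 60) (nat_lit 21) (nat_lit 1) (nat_lit 10) (nat_lit 52) (nat_lit 77) (nat_lit 4096) C2_20 = true := by decide +kernel
def sc2_20 : stCov (nat_lit 3) (nat_lit 77) (Rl.cons (nat_lit 77) (nat_lit 52) Rl.nil) C2_20 = true := by decide +kernel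

end Pool.Agent.NNr.R13_1_3_4
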