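import Pool.Agent.NNe.Chk

set_option linter.all false
set_option maxRecDepth 1000000
namespace Pool.Agent.NNr.R13_1_3_4

open Pool.Agent.NNe

noncomputable def C5_0 : Cd := (Cd.mk (nat_lit 0) (nat_lit 4) (nat_lit 1024) (nat_lit 0) (nat_lit 0) (nat_lit 0) (nat_lit 0) Sl.nil)
noncomputable def C5_1 : Cd := (Cd.mk (nat_lit 0) (nat_lit 5) (nat_lit 320) (nat_lit 0) (nat_lit 0) (nat_lit 0) (nat_lit 0) Sl.nil)
noncomputable def C5_2 : Cd := (Cd.mk (nat_lit 0) (nat_lit 5) (nat_lit 785) (nat_lit 0) (nat_lit 0) (nat_lit 0) (nat_lit 0) Sl.nil)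
noncomputable def C5_3 : Cd := (Cd.mk (nat_lit 0) (nat_lit 6) (nat_lit 81) (nat_lit 0) (nat_lit 0) (nat_lit 0) (nat_lit 0) Sl.nil)
noncomputable def SI5_4 : Nat := (nat_lit 0x140400c020080100000)
noncomputable def SW5_4 : Nat := (nat_lit 0x1001400c004000801c006000)
noncomputable def RV5_4 : Nat := (nat_lit 0x188002188005188006188000188001188007988003988004)
noncomputable def CO5_4 : Nat := (nat_lit 0x2888402558401664401100401004400aa04001104000144)
noncomputable def C5_4 : Cd := (Cd.mk (nat_lit 8) (nat_lit 6) (nat_lit 546) SI5_4 SW5_4 RV5_4 CO5_4 (Sl.cons (Sd.mk (nat_lit 0) (nat_lit 0) (nat_lit 0) (nat_lit 2) (Sb.cons (nat_lit 0) (nat_lit 0) (nat_lit 1) (Sb.cons (nat_lit 4) (nat_lit 1) (nat_lit 1) Sb.nil)) Bl.nil) (Sl.cons (Sd.mk (nat_lit 2) (nat_lit 0) (nat_lit 2) (nat_lit 1) (Sb.cons (nat_lit 8) (nat_lit 0) (nat_lit 1) Sb.nil) Bl.nil) (Sl.cons (Sd.mk (nat_lit 4) (nat_lit 4) (nat_lit 3) (nat_lit 2) (Sb.cons (nat_lit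 0) (nat_lit 0) (nat_lit 1) (Sb.cons (nat_lit 4) (nat_lit 1) (nat_lit 1) Sb.nil)) Bl.nil) (Sl.cons (Sd.mk (nat_lit 5) (nat_lit 4) (nat_lit 5) (nat_lit 1) (Sb.cons (nat_lit 8) (nat_lit 0) (nat_lit 1) Sb.nil) Bl.nil) (Sl.cons (Sd.mk (nat_lit 9) (nat_lit 8) (nat_lit 6) (nat_lit 1) (Sb.cons (nat_lit 4) (nat_lit 0) (nat_lit 1) Sb.nil) Bl.nil) (Sl.cons (Sd.mk (nat_lit 10) (nat_lit 8) (nat_lit 7) (nat_lit 1) (Sb.cons (nat_lit 0) (nat_lit 0) (nat_lit 1) Sb.nil) Bl.nil) Sl.nil)))))))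
noncomputable def C5_5 : Cd := (Cd.mk (nat_lit 0) (nat_lit 7) (nat_lit 307) (nat_lit 0) (nat_lit 0) (nat_lit 0) (nat_lit 0) Sl.nil)
noncomputable def C5_6 : Cd := (Cd.mk (nat_lit 0) (nat_lit 7) (nat_lit 772) (nat_lit 0) (nat_lit 0) (nat_lit 0) (nat_lit 0) Sl.nil)
noncomputable def C5_7 : Cd := (Cd.mk (nat_lit 0) (nat_lit 8) (nat_lit 68) (nat_lit 0) (nat_lit 0) (nat_lit 0) (nat_lit 0) Sl.nil)
noncomputable def C5_8 : Cd := (Cd.mk (nat_lit 0) (nat_lit 8) (nat_lit 533) (nat_lit 0) (nat_lit 0) (nat_lit 0) (nat_lit 0) Sl.nil)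
noncomputable def C5_9 : Cd := (Cd.mk (nat_lit 0) (nat_lit 9) (nat_lit 294) (nat_lit 0) (nat_lit 0) (nat_lit 0) (nat_lit 0) Sl.nil)
noncomputable def C5_10 : Cd := (Cd.mk (nat_lit 0) (nat_lit 10) (nat_lit 55) (nat_lit 0) (nat_lit 0) (nat_lit 0) (nat_lit 0) Sl.nil)
noncomputable def C5_11 : Cd := (Cd.mk (nat_lit 0) (nat_lit 10) (nat_lit 520) (nat_lit 0) (nat_lit 0) (nat_lit 0) (nat_lit 0) Sl.nil)
noncomputable def C5_12 : Cd := (Cd.mk (nat_lit 0) (nat_lit 11) (nat_lit 281) (nat_lit 0) (nat_lit 0) (nat_lit 0) (nat_lit 0) Sl.nil)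
noncomputable def C5_13 : Cd := (Cd.mk (nat_lit 0) (nat_lit 12) (nat_lit 42) (nat_lit 0) (nat_lit 0) (nat_lit 0) (nat_lit 0) Sl.nil)
noncomputable def C5_14 : Cd := (Cd.mk (nat_lit 0) (nat_lit 13) (nat_lit 268) (nat_lit 0) (nat_lit 0) (nat_lit 0) (nat_lit 0) Sl.nil)
noncomputable def C5_15 : Cd := (Cd.mk (nat_lit 0) (nat_lit 3) (nat_lit 4608) (nat_lit 0) (nat_lit 0) (nat_lit 0) (nat_lit 0) Sl.nil)
noncomputable def C5_16 : Cd := (Cd.mk (nat_lit 0) (nat_lit 4) (nat_lit 4369) (nat_lit 0) (nat_lit 0) (nat_lit 0) (nat_lit 0) Sl.nil)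
noncomputable def C5_17 : Cd := (Cd.mk (nat_lit 0) (nat_lit 5) (nat_lit 4130) (nat_lit 0) (nat_lit 0) (nat_lit 0) (nat_lit 0) Sl.nil)
noncomputable def C5_18 : Cd := (Cd.mk (nat_lit 0) (nat_lit 6) (nat_lit 4356) (nat_lit 0) (nat_lit 0) (nat_lit 0) (nat_lit 0) Sl.nil)
noncomputable def C5_19 : Cd := (Cd.mk (nat_lit 0) (nat_lit 7) (nat_lit 4117) (nat_lit 0) (nat_lit 0) (nat_lit 0) (nat_lit 0) Sl.nil)
noncomputable def C5_20 : Cd := (Cd.mk (nat_lit 0) (nat_lit 9) (nat_lit 4104) (nat_lit 0) (nat_lit 0) (nat_lit 0) (nat_lit 0) Sl.nil)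
noncomputable def CL5 : Cl := (Cl.cons C5_0 (Cl.cons C5_1 (Cl.cons C5_2 (Cl.cons C5_3 (Cl.cons C5_4 (Cl.cons C5_5 (Cl.cons C5_6 (Cl.cons C5_7 (Cl.cons C5_8 (Cl.cons C5_9 (Cl.cons C5_10 (Cl.cons C5_11 (Cl.cons C5_12 (Cl.cons C5_13 (Cl.cons C5_14 (Cl.cons C5_15 (Cl.cons C5_16 (Cl.cons C5_17 (Cl.cons C5_18 (Cl.cons C5_19 (Cl.cons C5_20 Cl.nil)))))))))))))))))))))
noncomputable def AL5_0 : Nat := (nat_lit 0)
noncomputable def A45_0 : Nat := (nat_lit 0)
noncomputable def IX5_0 : Nat := (nat_lit 0)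
noncomputable def OL5_0 : Nat := (nat_lit 0)
noncomputable def AL5_1 : Nat := (nat_lit 0)
noncomputable def A45_1 : Nat := (nat_lit 0)
noncomputable def IX5_1 : Nat := (nat_lit 0)
noncomputable def OL5_1 : Nat := (nat_lit 0)
noncomputable def AL5_2 : Nat := (nat_lit 0)
noncomputable def A45_2 : Nat := (nat_lit 0)
noncomputable def IX5_2 : Nat := (nat_lit 0)
noncomputable def OL5_2 : Nat := (nat_lit 0)
noncomputable def AL5_3 : Nat := (nat_lit 0)
noncomputable def A45_3 : Nat := (nat_lit 0)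
noncomputable def IX5_3 : Nat := (nat_lit 0)
noncomputable def OL5_3 : Nat := (nat_lit 0)
noncomputable def AL5_4 : Nat := (nat_lit 0x5000cc0000c0c05000063)
noncomputable def A45_4 : Nat := (nat_lit 0x100044000040401000021)
noncomputable def IX5_4 : Nat := (nat_lit 0x700000000000000000000000000000000000000000000000000000000000000000000000000000000000000000000000000000000000000000000000000000000000000000000000000000000000000000000000000000000000006000000000000000000000000000000000000000000000000000500000000000000000000000000000000000000000000000000000000000000000000000000000000000000000000000000000000000000000000000000000000000000000000000000000000000000000000000000000000000000000000000000000000000000000000000000000000000000000000000000000000000000000004000000000000000000000000000000000000000000000000000000000000000000000000000000000000000000000000000000030000000000000000000000000000000000000000000000000000000000000000000000000000000000000000000000000000000000000000000000000000000002000000000000000000000000000000000000000000000000000000000000000000000000000000000000000000000000000000000000000000000000000000000000000000000000000000000000000000000000000000000000000000000000000000000000000000000000000000000000000000000000000000100000000000000000000000000000000000000000000000000000000000000000)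
noncomputable def OL5_4 : Nat := (nat_lit 0x280042007c00a80110018000a0000)
noncomputable def AL5_5 : Nat := (nat_lit 0)
noncomputable def A45_5 : Nat := (nat_lit 0)
noncomputable def IX5_5 : Nat := (nat_lit 0)
noncomputable def OL5_5 : Nat := (nat_lit 0)
noncomputable def AL5_6 : Nat := (nat_lit 0)
noncomputable def A45_6 : Nat := (nat_lit 0)
noncomputable def IX5_6 : Nat := (nat_lit 0)
noncomputable def OL5_6 : Nat := (nat_lit 0)
noncomputable def AL5_7 : Nat := (nat_lit 0)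
noncomputable def A45_7 : Nat := (nat_lit 0)
noncomputable def IX5_7 : Nat := (nat_lit 0)
noncomputable def OL5_7 : Nat := (nat_lit 0)
noncomputable def AL5_8 : Nat := (nat_lit 0)
noncomputable def A45_8 : Nat := (nat_lit 0)
noncomputable def IX5_8 : Nat := (nat_lit 0)
noncomputable def OL5_8 : Nat := (nat_lit 0)
noncomputable def AL5_9 : Nat := (nat_lit 0)
noncomputable def A45_9 : Nat := (nat_lit 0)
noncomputable def IX5_9 : Nat := (nat_lit 0)
noncomputable def OL5_9 : Nat := (nat_lit 0)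
noncomputable def AL5_10 : Nat := (nat_lit 0)
noncomputable def A45_10 : Nat := (nat_lit 0)
noncomputable def IX5_10 : Nat := (nat_lit 0)
noncomputable def OL5_10 : Nat := (nat_lit 0)
noncomputable def AL5_11 : Nat := (nat_lit 0)
noncomputable def A45_11 : Nat := (nat_lit 0)
noncomputable def IX5_11 : Nat := (nat_lit 0)
noncomputable def OL5_11 : Nat := (nat_lit 0)
noncomputable def AL5_12 : Nat := (nat_lit 0)
noncomputable def A45_12 : Nat := (nat_lit 0)
noncomputable def IX5_12 : Nat := (nat_lit 0)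
noncomputable def OL5_12 : Nat := (nat_lit 0)
noncomputable def AL5_13 : Nat := (nat_lit 0)
noncomputable def A45_13 : Nat := (nat_lit 0)
noncomputable def IX5_13 : Nat := (nat_lit 0)
noncomputable def OL5_13 : Nat := (nat_lit 0)
noncomputable def AL5_14 : Nat := (nat_lit 0)
noncomputable def A45_14 : Nat := (nat_lit 0)
noncomputable def IX5_14 : Nat := (nat_lit 0)
noncomputable def OL5_14 : Nat := (nat_lit 0)
noncomputable def AL5_15 : Nat := (nat_lit 0)
noncomputable def A45_15 : Nat := (nat_lit 0)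
noncomputable def IX5_15 : Nat := (nat_lit 0)
noncomputable def OL5_15 : Nat := (nat_lit 0)
noncomputable def AL5_16 : Nat := (nat_lit 0)
noncomputable def A45_16 : Nat := (nat_lit 0)
noncomputable def IX5_16 : Nat := (nat_lit 0)
noncomputable def OL5_16 : Nat := (nat_lit 0)
noncomputable def AL5_17 : Nat := (nat_lit 0)
noncomputable def A45_17 : Nat := (nat_lit 0)
noncomputable def IX5_17 : Nat := (nat_lit 0)
noncomputable def OL5_17 : Nat := (nat_lit 0)
noncomputable def AL5_18 : Nat := (nat_lit 0)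
noncomputable def A45_18 : Nat := (nat_lit 0)
noncomputable def IX5_18 : Nat := (nat_lit 0)
noncomputable def OL5_18 : Nat := (nat_lit 0)
noncomputable def AL5_19 : Nat := (nat_lit 0)
noncomputable def A45_19 : Nat := (nat_lit 0)
noncomputable def IX5_19 : Nat := (nat_lit 0)
noncomputable def OL5_19 : Nat := (nat_lit 0)
noncomputable def AL5_20 : Nat := (nat_lit 0)
noncomputable def A45_20 : Nat := (nat_lit 0)
noncomputable def IX5_20 : Nat := (nat_lit 0)
noncomputable def OL5_20 : Nat := (nat_lit 0)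
noncomputable def TL5 : Tl := (Tl.cons (Tr.mk AL5_0 A45_0 IX5_0 OL5_0) (Tl.cons (Tr.mk AL5_1 A45_1 IX5_1 OL5_1) (Tl.cons (Tr.mk AL5_2 A45_2 IX5_2 OL5_2) (Tl.cons (Tr.mk AL5_3 A45_3 IX5_3 OL5_3) (Tl.cons (Tr.mk AL5_4 A45_4 IX5_4 OL5_4) (Tl.cons (Tr.mk AL5_5 A45_5 IX5_5 OL5_5) (Tl.cons (Tr.mk AL5_6 A45_6 IX5_6 OL5_6) (Tl.cons (Tr.mk AL5_7 A45_7 IX5_7 OL5_7) (Tl.cons (Tr.mk AL5_8 A45_8 IX5_8 OL5_8) (Tl.cons (Tr.mk AL5_9 A45_9 IX5_9 OL5_9) (Tl.cons (Tr.mk AL5_10 A45_10 IX5_10 OL5_10) (Tl.cons (Tr.mk AL5_11 A45_11 IX5_11 OL5_11) (Tl.cons (Tr.mk AL5_12 A45_12 IX5_12 OL5_12) (Tl.cons (Tr.mk AL5_13 A45_13 IX5_13 OL5_13) (Tl.cons (Tr.mk AL5_14 A45_14 IX5_14 OL5_14) (Tl.cons (Tr.mk AL5_15 A45_15 IX5_15 OL5_15) (Tl.cons (Tr.mk AL5_16 A45_16 IX5_16 OL5_16) (Tl.cons (Tr.mk AL5_17 A45_17 IX5_17 OL5_17) (Tl.cons (Tr.mk AL5_18 A45_18 IX5_18 OL5_18) (Tl.cons (Tr.mk AL5_19 A45_19 IX5_19 OL5_19) (Tl.cons (Tr.mk AL5_20 A45_20 IX5_20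 OL5_20) Tl.nil)))))))))))))))))))))
noncomputable def ZL5_0 : Zl := (Zl.cons (nat_lit 0) (nat_lit 0) (nat_lit 0) (Zl.cons (nat_lit 0) (nat_lit 0) (nat_lit 0) (Zl.cons (nat_lit 0) (nat_lit 0) (nat_lit 0) (Zl.cons (nat_lit 0) (nat_lit 0) (nat_lit 0) (Zl.cons (nat_lit 3) (nat_lit 0) (nat_lit 2) (Zl.cons (nat_lit 0) (nat_lit 0) (nat_lit 0) (Zl.cons (nat_lit 0) (nat_lit 0) (nat_lit 0) (Zl.cons (nat_lit 0) (nat_lit 0) (nat_lit 0) (Zl.cons (nat_lit 0) (nat_lit 0) (nat_lit 0) (Zl.cons (nat_lit 0) (nat_lit 0) (nat_lit 0) (Zl.cons (nat_lit 0) (nat_lit 0) (nat_lit 0) (Zl.cons (nat_lit 0) (nat_lit 0) (nat_lit 0) (Zl.cons (nat_lit 0) (nat_lit 0) (nat_lit 0) (Zl.cons (nat_lit 0) (nat_lit 0) (nat_lit 0) (Zl.cons (nat_lit 0) (nat_lit 0) (nat_lit 0) (Zl.cons (nat_lit 0) (nat_lit 0) (nat_lit 0) (Zl.cons (nat_lit 0) (nat_lit 0) (nat_lit 0) (Zl.cons (nat_lit 0) (nat_lit 0) (nat_lit 0) (Zl.cons (nat_lit 0) (nat_lit 0) (nat_lit 0) (Zl.cons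 (nat_lit 0) (nat_lit 0) (nat_lit 0) (Zl.cons (nat_lit 0) (nat_lit 0) (nat_lit 0) Zl.nil)))))))))))))))))))))
noncomputable def ZZ5 : ZZ := (ZZ.cons ZL5_0 ZZ.nil)

end Pool.Agent.NNr.R13_1_3_4
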